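import Pool.Agent.H1.DW.PGa
import Pool.Agent.H81.GLB.TK

/-!
# PG: Poisson summation for ideals and products of local functions
-/

set_option autoImplicit false

open NumberField NumberField.InfinitePlace NumberField.Units
  NumberField.Units.dirichletUnitTheorem MeasureTheory Set Filter Complex
open scoped nonZeroDivisors ENNReal

namespace Pool.Agent.H1.DW

open Pool.Agent.H25.HK Pool.Agent.H23.LB Pool.Agent.H23.LC Pool.Agent.H29.DW
open Pool.Agent.H28.RC (Rep ft idl RP re abs_re co T_GMc T_LBc)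
open Pool.Agent.H29.TC (GK fk_le dvs)
open Pool.Agent.H19.RC (repEquiv repEquiv_apply)

section

variable {K : Type} [Field K] [NumberField K]

open scoped Classical in
/-- the product of the local functions in real coordinates -/
noncomputable def Phi (G : InfinitePlace K → ℂ → ℂ) (ω : InfinitePlace K → ℂ)
    (u : mixedEmbedding.index K → ℝ) : ℂ :=
  (∏ v : {w : InfinitePlace K // w.IsReal}, G v.1 ((u (Sum.inl v) : ℂ) * ω v.1)) *
    ∏ v : {w : InfinitePlace K // w.IsComplex},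
      G v.1 (((u (Sum.inr (v, 0)) : ℂ) + (u (Sum.inr (v, 1)) : ℂ) * I) /
        ((Real.sqrt 2 : ℝ) : ℂ) * ω v.1)

/-- the dual coordinate -/
noncomputable def zr (ω : InfinitePlace K → ℂ) (ξ : mixedEmbedding.index K → ℝ)
    (v : {w : InfinitePlace K // w.IsReal}) : ℂ := (ξ (Sum.inl v) : ℂ) * (starRingEnd ℂ) (ω v.1)

/-- the dual coordinate -/
noncomputable def zc (ω : InfinitePlace K → ℂ) (ξ : mixedEmbedding.index K → ℝ)
    (v : {w : InfinitePlace K // w.IsComplex}) : ℂ :=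
  ((ξ (Sum.inr (v, 0)) : ℂ) - (ξ (Sum.inr (v, 1)) : ℂ) * I) /
    ((Real.sqrt 2 : ℝ) : ℂ) * (starRingEnd ℂ) (ω v.1)

open scoped Classical in
/-- the Fourier transform of the product -/
theorem ft_Phi (G : InfinitePlace K → ℂ → ℂ) (ω : InfinitePlace K → ℂ) (hω : Pos ω)
    (ξ : mixedEmbedding.index K → ℝ) :
    ∫ u : mixedEmbedding.index K → ℝ, cexp (-(2 * Real.pi * (∑ i, ξ i * u i) : ℝ) * I) *
      Phi G ω u =
    (∏ v : {w : InfinitePlace K // w.IsReal}, lf true (G v.1) (zr ω ξ v)) *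
      ∏ v : {w : InfinitePlace K // w.IsComplex}, lf false (G v.1) (zc ω ξ v) := by
  have h1 := fub (A := {w : InfinitePlace K // w.IsReal})
    (B := {w : InfinitePlace K // w.IsComplex})
    (fun v x => cexp (-(2 * Real.pi * (ξ (Sum.inl v) * x) : ℝ) * I) * G v.1 (x * ω v.1))
    (fun v z => cexp (-(2 * Real.pi * (ξ (Sum.inr (v, 0)) * z.re +
      ξ (Sum.inr (v, 1)) * z.im) : ℝ) * I) * G v.1 (z / ((Real.sqrt 2 : ℝ) : ℂ) * ω v.1))
  have h2 : ∀ u : mixedEmbedding.index K → ℝ,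
      cexp (-(2 * Real.pi * (∑ i, ξ i * u i) : ℝ) * I) * Phi G ω u =
      (∏ v : {w : InfinitePlace K // w.IsReal},
        cexp (-(2 * Real.pi * (ξ (Sum.inl v) * u (Sum.inl v)) : ℝ) * I) *
          G v.1 ((u (Sum.inl v) : ℂ) * ω v.1)) *
      ∏ v : {w : InfinitePlace K // w.IsComplex},
        (cexp (-(2 * Real.pi * (ξ (Sum.inr (v, 0)) *
          ((u (Sum.inr (v, 0)) : ℂ) + (u (Sum.inr (v, 1)) : ℂ) * I).re +
          ξ (Sum.inr (v, 1)) *
          ((u (Sum.inr (v, 0)) : ℂ) + (u (Sum.inr (v, 1)) : ℂ) * I).im) : ℝ) * I) *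
          G v.1 (((u (Sum.inr (v, 0)) : ℂ) + (u (Sum.inr (v, 1)) : ℂ) * I) /
            ((Real.sqrt 2 : ℝ) : ℂ) * ω v.1)) := by
    intro u
    rw [Finset.prod_mul_distrib, Finset.prod_mul_distrib, ← Complex.exp_sum, ← Complex.exp_sum]
    unfold Phi
    rw [mul_mul_mul_comm, ← Complex.exp_add]
    congr 2
    rw [Fintype.sum_sum_type, Fintype.sum_prod_type]
    simp only [Fin.sum_univ_two, Complex.add_re, Complex.add_im, Complex.mul_re, Complex.mul_im,
      Complex.ofReal_re, Complex.ofReal_im, Complex.I_re, Complex.I_im, mul_zero, mul_one,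
      zero_mul, sub_zero, add_zero, zero_add, sub_self]
    push_cast
    rw [← Finset.sum_mul, ← Finset.sum_mul, Finset.sum_neg_distrib, Finset.sum_neg_distrib,
      ← Finset.mul_sum, ← Finset.mul_sum]
    ring
  simp only [h2]
  rw [h1]
  congr 1
  · refine Finset.prod_congr rfl fun v _ => ?_
    exact loc_r (G v.1) (ω v.1) (hω.one _) (hω.real _ v.2) _
  · refine Finset.prod_congr rfl fun v _ => ?_
    exact loc_c (G v.1) (ω v.1) (hω.one _) _ _

lemma sqrt_ne : ((Real.sqrt 2 : ℝ) : ℂ) ≠ 0 := by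
  exact_mod_cast (Real.sqrt_pos.2 (by norm_num : (0 : ℝ) < 2)).ne'

lemma rv_real (v : InfinitePlace K) (h : v.IsReal) : rv v = true := by
  unfold rv
  simp [h]

lemma rv_complex (v : InfinitePlace K) (h : v.IsComplex) : rv v = false := by
  unfold rv
  have := not_isReal_iff_isComplex.2 h
  simp [this]

open scoped Classical in
theorem Phi_co (G : InfinitePlace K → ℂ → ℂ) (ω : InfinitePlace K → ℂ)
    (y : InfinitePlace K → ℝ) (x : K) :
    Phi G ω (co K 1 y x) = ∏ v, G v (wv v x y ω) := by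
  rw [prod_eq_prod_mul_prod]
  unfold Phi wv
  congr 1
  · refine Finset.prod_congr rfl fun v _ => ?_
    rw [H81.GLB.emb_real]
    simp only [co]
    push_cast
    ring_nf
  · refine Finset.prod_congr rfl fun v _ => ?_
    simp only [co, if_true, one_ne_zero, if_false, one_mul]
    congr 2
    rw [div_eq_iff sqrt_ne]
    conv_rhs => rw [← Complex.re_add_im (v.1.embedding x)]
    push_cast
    ring

open scoped Classical in
theorem dual_co (G : InfinitePlace K → ℂ → ℂ) (ω : InfinitePlace K → ℂ)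
    (y : InfinitePlace K → ℝ) (x : K) :
    (∏ v : {w : InfinitePlace K // w.IsReal}, lf true (G v.1) (zr ω (co K (-1) y x) v)) *
      ∏ v : {w : InfinitePlace K // w.IsComplex}, lf false (G v.1) (zc ω (co K (-1) y x) v) =
    ∏ v, lf (rv v) (G v) (wv v x y (fun v => (starRingEnd ℂ) (ω v))) := by
  rw [prod_eq_prod_mul_prod]
  congr 1
  · refine Finset.prod_congr rfl fun v _ => ?_
    rw [rv_real v.1 v.2]
    congr 1
    unfold wv zr
    rw [H81.GLB.emb_real]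
    simp only [co]
    push_cast
    ring
  · refine Finset.prod_congr rfl fun v _ => ?_
    rw [rv_complex v.1 v.2]
    congr 1
    unfold wv zc
    simp only [co, if_true, one_ne_zero, if_false]
    congr 1
    rw [div_eq_iff sqrt_ne]
    conv_rhs => rw [← Complex.re_add_im (v.1.embedding x)]
    push_cast
    ring

theorem Phi_cont (G : InfinitePlace K → ℂ → ℂ) (ω : InfinitePlace K → ℂ)
    (hG : ∀ v, Continuous (G v)) : Continuous (Phi G ω) := by
  unfold Phi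
  refine Continuous.mul (continuous_finsetProd _ fun v _ => (hG v.1).comp ?_)
    (continuous_finsetProd _ fun v _ => (hG v.1).comp ?_)
  · fun_prop
  · fun_prop

/-- the support of the product -/
theorem Phi_supp (G : InfinitePlace K → ℂ → ℂ) (ω : InfinitePlace K → ℂ) (hω : Pos ω) (R : ℝ)
    (hR : ∀ v w, R < ‖w‖ → G v w = 0) (u : mixedEmbedding.index K → ℝ)
    (hu : Phi G ω u ≠ 0) (i : mixedEmbedding.index K) : |u i| ≤ 2 * |R| := by
  classical
  unfold Phi at hu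
  have h1 := left_ne_zero_of_mul hu
  have h2 := right_ne_zero_of_mul hu
  have hRR := le_abs_self R
  have hR0 := abs_nonneg R
  rcases i with v | ⟨v, j⟩
  · have h3 := Finset.prod_ne_zero_iff.1 h1 v (Finset.mem_univ _)
    by_contra hcon
    push Not at hcon
    apply h3
    apply hR
    rw [norm_mul, hω.one, mul_one, Complex.norm_real, Real.norm_eq_abs]
    linarith
  · have h3 := Finset.prod_ne_zero_iff.1 h2 v (Finset.mem_univ _)
    by_contra hcon
    push Not at hcon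
    apply h3
    apply hR
    have hs : (0 : ℝ) < Real.sqrt 2 := Real.sqrt_pos.2 (by norm_num)
    have hs2 : Real.sqrt 2 ≤ 2 := by
      rw [Real.sqrt_le_left (by norm_num)]
      norm_num
    rw [norm_mul, hω.one, mul_one, norm_div, Complex.norm_real, Real.norm_eq_abs,
      abs_of_pos hs, lt_div_iff₀ hs]
    have h4 : |u (Sum.inr (v, j))| ≤
        ‖(u (Sum.inr (v, 0)) : ℂ) + (u (Sum.inr (v, 1)) : ℂ) * I‖ := by
      fin_cases j
      · have := Complex.abs_re_le_norm ((u (Sum.inr (v, 0)) : ℂ) + (u (Sum.inr (v, 1)) : ℂ) * I)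
        simpa using this
      · have := Complex.abs_im_le_norm ((u (Sum.inr (v, 0)) : ℂ) + (u (Sum.inr (v, 1)) : ℂ) * I)
        simpa using this
    have h5 : R * Real.sqrt 2 ≤ |R| * 2 :=
      (mul_le_mul_of_nonneg_right hRR hs.le).trans (mul_le_mul_of_nonneg_left hs2 hR0)
    linarith

theorem Phi_comp (G : InfinitePlace K → ℂ → ℂ) (ω : InfinitePlace K → ℂ) (hω : Pos ω) (R : ℝ)
    (hR : ∀ v w, R < ‖w‖ → G v w = 0) : HasCompactSupport (Phi G ω) := by
  refine HasCompactSupport.intro (K := Set.Icc (fun _ => -(2 * |R|)) (fun _ => 2 * |R|))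
    isCompact_Icc fun u hu => ?_
  by_contra h
  apply hu
  have h1 := Phi_supp G ω hω R hR u h
  exact ⟨fun i => (abs_le.1 (h1 i)).1, fun i => (abs_le.1 (h1 i)).2⟩

lemma zr_real (ω : InfinitePlace K → ℂ) (hω : Pos ω) (ξ : mixedEmbedding.index K → ℝ)
    (v : {w : InfinitePlace K // w.IsReal}) : (zr ω ξ v).im = 0 := by
  unfold zr
  simp [hω.real v.1 v.2]

lemma zr_norm (ω : InfinitePlace K → ℂ) (hω : Pos ω) (ξ : mixedEmbedding.index K → ℝ)
    (v : {w : InfinitePlace K // w.IsReal}) : ‖zr ω ξ v‖ = |ξ (Sum.inl v)| := by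
  unfold zr
  rw [norm_mul, RCLike.norm_conj, hω.one, mul_one, Complex.norm_real, Real.norm_eq_abs]

lemma zc_norm (ω : InfinitePlace K → ℂ) (hω : Pos ω) (ξ : mixedEmbedding.index K → ℝ)
    (v : {w : InfinitePlace K // w.IsComplex}) (j : Fin 2) :
    |ξ (Sum.inr (v, j))| ≤ 2 * ‖zc ω ξ v‖ := by
  have hs : (0 : ℝ) < Real.sqrt 2 := Real.sqrt_pos.2 (by norm_num)
  have hs2 : Real.sqrt 2 ≤ 2 := by
    rw [Real.sqrt_le_left (by norm_num)]
    norm_num
  unfold zc
  rw [norm_mul, RCLike.norm_conj, hω.one, mul_one, norm_div, Complex.norm_real, Real.norm_eq_abs,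
    abs_of_pos hs]
  have h4 : |ξ (Sum.inr (v, j))| ≤
      ‖(ξ (Sum.inr (v, 0)) : ℂ) - (ξ (Sum.inr (v, 1)) : ℂ) * I‖ := by
    fin_cases j
    · have := Complex.abs_re_le_norm ((ξ (Sum.inr (v, 0)) : ℂ) - (ξ (Sum.inr (v, 1)) : ℂ) * I)
      simpa using this
    · have := Complex.abs_im_le_norm ((ξ (Sum.inr (v, 0)) : ℂ) - (ξ (Sum.inr (v, 1)) : ℂ) * I)
      simpa using this
  refine h4.trans ?_
  rw [mul_div_assoc', le_div_iff₀ hs]
  have := norm_nonneg ((ξ (Sum.inr (v, 0)) : ℂ) - (ξ (Sum.inr (v, 1)) : ℂ) * I)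
  nlinarith

open scoped Classical in
/-- the decay of the Fourier transform -/
theorem decay (G : InfinitePlace K → ℂ → ℂ) (ω : InfinitePlace K → ℂ) (hω : Pos ω) (C : ℝ)
    (hC : ∀ v ξ, Rl (rv v) ξ → ‖lf (rv v) (G v) ξ‖ ≤
      C * (1 + ‖ξ‖) ^ (-(Module.finrank ℚ K + 1 : ℝ))) :
    ∃ C' : ℝ, ∀ ξ : mixedEmbedding.index K → ℝ,
      ‖(∏ v : {w : InfinitePlace K // w.IsReal}, lf true (G v.1) (zr ω ξ v)) *
      ∏ v : {w : InfinitePlace K // w.IsComplex}, lf false (G v.1) (zc ω ξ v)‖ ≤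
      C' * (1 + ‖ξ‖) ^ (-(Fintype.card (mixedEmbedding.index K) + 1 : ℝ)) := by
  have hcard : Fintype.card (mixedEmbedding.index K) = Module.finrank ℚ K := by
    rw [← mixedEmbedding.finrank K, Module.finrank_eq_card_basis (mixedEmbedding.stdBasis K)]
  rw [hcard]
  set n : ℝ := (Module.finrank ℚ K : ℝ) with hn
  have hn0 : 0 ≤ n := Nat.cast_nonneg _
  have hnpos : 0 < Fintype.card (mixedEmbedding.index K) := by
    rw [hcard]
    exact Module.finrank_pos
  have hne : Nonempty (mixedEmbedding.index K) := Fintype.card_pos_iff.1 hnpos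
  obtain ⟨D, hD⟩ : ∃ D : ℝ, D = max C 1 := ⟨_, rfl⟩
  have hD1 : 1 ≤ D := by rw [hD]; exact le_max_right _ _
  have hCD : C ≤ D := by rw [hD]; exact le_max_left _ _
  have hD0 : 0 < D := lt_of_lt_of_le one_pos hD1
  -- the bounds of the factors
  have hbr : ∀ (ξ : mixedEmbedding.index K → ℝ) (v : {w : InfinitePlace K // w.IsReal}),
      ‖lf true (G v.1) (zr ω ξ v)‖ ≤ D * (1 + ‖zr ω ξ v‖) ^ (-(n + 1)) := by
    intro ξ v
    have h := hC v.1 (zr ω ξ v) (fun _ => zr_real ω hω ξ v)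
    rw [rv_real v.1 v.2] at h
    exact h.trans (mul_le_mul_of_nonneg_right hCD (by positivity))
  have hbc : ∀ (ξ : mixedEmbedding.index K → ℝ) (v : {w : InfinitePlace K // w.IsComplex}),
      ‖lf false (G v.1) (zc ω ξ v)‖ ≤ D * (1 + ‖zc ω ξ v‖) ^ (-(n + 1)) := by
    intro ξ v
    have h := hC v.1 (zc ω ξ v) (by rw [rv_complex v.1 v.2]; intro h; exact absurd h (by decide))
    rw [rv_complex v.1 v.2] at h
    exact h.trans (mul_le_mul_of_nonneg_right hCD (by positivity))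
  have hle1 : ∀ t : ℝ, 0 ≤ t → (1 + t) ^ (-(n + 1)) ≤ 1 := fun t ht =>
    Real.rpow_le_one_of_one_le_of_nonpos (by linarith) (by linarith)
  obtain ⟨a, ha⟩ : ∃ a : ℕ, a = Fintype.card {w : InfinitePlace K // w.IsReal} := ⟨_, rfl⟩
  obtain ⟨b, hb⟩ : ∃ b : ℕ, b = Fintype.card {w : InfinitePlace K // w.IsComplex} := ⟨_, rfl⟩
  refine ⟨D ^ a * D ^ b * 2 ^ (n + 1), fun ξ => ?_⟩
  obtain ⟨i, -, hi⟩ := Finset.exists_max_image Finset.univ (fun i => ‖ξ i‖) Finset.univ_nonempty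
  have hnorm : ‖ξ‖ ≤ ‖ξ i‖ :=
    (pi_norm_le_iff_of_nonneg (norm_nonneg _)).2 fun j => hi j (Finset.mem_univ _)
  rw [Real.norm_eq_abs] at hnorm
  -- the comparison
  have hcmp : ∀ t : ℝ, 0 ≤ t → |ξ i| ≤ 2 * t → (1 + t) ^ (-(n + 1)) ≤
      2 ^ (n + 1) * (1 + ‖ξ‖) ^ (-(n + 1)) := by
    intro t ht hit
    have h1 : (1 + ‖ξ‖) / 2 ≤ 1 + t := by
      have := norm_nonneg ξ
      linarith
    have h2 : (1 + t) ^ (-(n + 1)) ≤ ((1 + ‖ξ‖) / 2) ^ (-(n + 1)) :=
      Real.rpow_le_rpow_of_nonpos (by positivity) h1 (by linarith)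
    refine h2.trans (le_of_eq ?_)
    rw [Real.div_rpow (by positivity) (by norm_num), Real.rpow_neg (by norm_num : (0 : ℝ) ≤ 2),
      div_inv_eq_mul, mul_comm]
  have hprod : ∀ {ι : Type} [Fintype ι] (F : ι → ℂ) (Z : ι → ℝ), (∀ j, 0 ≤ Z j) →
      (∀ j, ‖F j‖ ≤ D * (1 + Z j) ^ (-(n + 1))) →
      ‖∏ j, F j‖ ≤ D ^ Fintype.card ι ∧ ∀ j, ‖∏ j, F j‖ ≤
        D ^ Fintype.card ι * (1 + Z j) ^ (-(n + 1)) := by
    intro ι _ F Z hZ hF
    have h1 : ‖∏ j, F j‖ ≤ D ^ Fintype.card ι := by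
      rw [norm_prod, ← Finset.card_univ, ← Finset.prod_const]
      refine Finset.prod_le_prod (fun _ _ => norm_nonneg _) fun j _ => (hF j).trans ?_
      exact mul_le_of_le_one_right hD0.le (hle1 _ (hZ j))
    refine ⟨h1, fun j => ?_⟩
    have h2 : D ^ Fintype.card ι * (1 + Z j) ^ (-(n + 1)) =
        ∏ k, D * (if k = j then (1 + Z k) ^ (-(n + 1)) else 1) := by
      rw [Finset.prod_mul_distrib, Finset.prod_const, Finset.card_univ, Finset.prod_ite_eq',
        if_pos (Finset.mem_univ _)]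
    rw [h2, norm_prod]
    refine Finset.prod_le_prod (fun _ _ => norm_nonneg _) fun k _ => ?_
    split_ifs with hk
    · exact hF k
    · rw [mul_one]
      exact (hF k).trans (mul_le_of_le_one_right hD0.le (hle1 _ (hZ k)))
  obtain ⟨hr1, hr2⟩ := hprod (fun v => lf true (G v.1) (zr ω ξ v)) (fun v => ‖zr ω ξ v‖)
    (fun _ => norm_nonneg _) (hbr ξ)
  obtain ⟨hc1, hc2⟩ := hprod (fun v => lf false (G v.1) (zc ω ξ v)) (fun v => ‖zc ω ξ v‖)
    (fun _ => norm_nonneg _) (hbc ξ)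
  rw [← ha] at hr1 hr2
  rw [← hb] at hc1 hc2
  rw [norm_mul]
  rcases i with v | ⟨v, j⟩
  · have h3 := hcmp ‖zr ω ξ v‖ (norm_nonneg _) (by
      rw [zr_norm ω hω]
      have := abs_nonneg (ξ (Sum.inl v))
      linarith)
    calc ‖∏ v : {w : InfinitePlace K // w.IsReal}, lf true (G v.1) (zr ω ξ v)‖ *
          ‖∏ v : {w : InfinitePlace K // w.IsComplex}, lf false (G v.1) (zc ω ξ v)‖
        ≤ (D ^ a * (1 + ‖zr ω ξ v‖) ^ (-(n + 1))) * D ^ b :=
          mul_le_mul (hr2 v) hc1 (norm_nonneg _) (by positivity)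
      _ ≤ (D ^ a * (2 ^ (n + 1) * (1 + ‖ξ‖) ^ (-(n + 1)))) * D ^ b := by gcongr
      _ = D ^ a * D ^ b * 2 ^ (n + 1) * (1 + ‖ξ‖) ^ (-(n + 1)) := by ring
  · have h3 := hcmp ‖zc ω ξ v‖ (norm_nonneg _) (zc_norm ω hω ξ v j)
    calc ‖∏ v : {w : InfinitePlace K // w.IsReal}, lf true (G v.1) (zr ω ξ v)‖ *
          ‖∏ v : {w : InfinitePlace K // w.IsComplex}, lf false (G v.1) (zc ω ξ v)‖
        ≤ D ^ a * (D ^ b * (1 + ‖zc ω ξ v‖) ^ (-(n + 1))) :=
          mul_le_mul hr1 (hc2 v) (norm_nonneg _) (by positivity)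
      _ ≤ D ^ a * (D ^ b * (2 ^ (n + 1) * (1 + ‖ξ‖) ^ (-(n + 1)))) := by gcongr
      _ = D ^ a * D ^ b * 2 ^ (n + 1) * (1 + ‖ξ‖) ^ (-(n + 1)) := by ring

/-- finitely many lattice points in a box -/
theorem fin_box {ι : Type} [Fintype ι] [DecidableEq ι] (A : Matrix ι ι ℝ) (hA : A.det ≠ 0)
    (x₀ : ι → ℝ) (B : ℝ) :
    {m : ι → ℤ | ∀ i, |A.mulVec (fun i => (m i : ℝ) + x₀ i) i| ≤ B}.Finite := by
  have hAA : A⁻¹ * A = 1 := Matrix.nonsing_inv_mul A (isUnit_iff_ne_zero.2 hA)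
  obtain ⟨T, hT⟩ : ∃ T : ℝ, ∀ i, ∑ j, |A⁻¹ i j| * |B| + |x₀ i| ≤ T := by
    obtain ⟨T, hT⟩ := (Set.finite_range fun i => ∑ j, |A⁻¹ i j| * |B| + |x₀ i|).bddAbove
    exact ⟨T, fun i => hT ⟨i, rfl⟩⟩
  refine (Set.finite_Icc (fun _ : ι => -⌈T⌉) (fun _ : ι => ⌈T⌉)).subset ?_
  intro m hm
  have h1 : ∀ i, (m i : ℝ) + x₀ i = ∑ j, A⁻¹ i j * A.mulVec (fun i => (m i : ℝ) + x₀ i) j := by
    intro i
    have h2 : (A⁻¹).mulVec (A.mulVec (fun i => (m i : ℝ) + x₀ i)) = fun i => (m i : ℝ) + x₀ i := by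
      rw [Matrix.mulVec_mulVec, hAA, Matrix.one_mulVec]
    have h3 := congrFun h2 i
    rw [← h3]
    rfl
  have h4 : ∀ i, |(m i : ℝ)| ≤ T := by
    intro i
    have h5 : |(m i : ℝ) + x₀ i| ≤ ∑ j, |A⁻¹ i j| * |B| := by
      rw [h1 i]
      refine (Finset.abs_sum_le_sum_abs _ _).trans (Finset.sum_le_sum fun j _ => ?_)
      rw [abs_mul]
      exact mul_le_mul_of_nonneg_left ((hm j).trans (le_abs_self B)) (abs_nonneg _)
    have h6 : |(m i : ℝ)| ≤ |(m i : ℝ) + x₀ i| + |x₀ i| := by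
      have := abs_sub (((m i : ℝ)) + x₀ i) (x₀ i)
      rwa [add_sub_cancel_right] at this
    linarith [hT i]
  constructor
  · intro i
    have h7 := (abs_le.1 (h4 i)).1
    have h8 : -(⌈T⌉ : ℝ) ≤ (m i : ℝ) := by linarith [Int.le_ceil T]
    exact_mod_cast h8
  · intro i
    have h7 := (abs_le.1 (h4 i)).2
    have h8 : (m i : ℝ) ≤ (⌈T⌉ : ℝ) := by linarith [Int.le_ceil T]
    exact_mod_cast h8

end

open scoped Classical in
/-- the sum over a coset -/
lemma coset_sum (hPM : V_PM) (hGM : T_GMc) (hLB : T_LBc) (K : Type) [Field K] [NumberField K]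
    (G : InfinitePlace K → ℂ → ℂ) (hG : ∀ v, Continuous (G v))
    (R : ℝ) (hR : ∀ v w, R < ‖w‖ → G v w = 0) (C : ℝ)
    (hC : ∀ v ξ, Rl (rv v) ξ → ‖lf (rv v) (G v) ξ‖ ≤
      C * (1 + ‖ξ‖) ^ (-(Module.finrank ℚ K + 1 : ℝ)))
    (L : FI K) (hL : L ≠ 0) (y : InfinitePlace K → ℝ) (ω : InfinitePlace K → ℂ) (hω : Pos ω)
    (r : K) :
    Summable (fun l : {l : K // l ∈ L} => ‖∏ v, G v (wv v (l + r) y ω)‖) ∧
    Summable (fun l : {l : K // l ∈ du K L} => ‖∏ v, lf (rv v) (G v)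
      (wv v l (-y) (fun v => (starRingEnd ℂ) (ω v)))‖) ∧
    ∑' l : {l : K // l ∈ L}, ∏ v, G v (wv v (l + r) y ω) =
      ((Real.exp (-(∑ v, (v.mult : ℝ) * y v) / 2) * (cv K L)⁻¹ : ℝ) : ℂ) *
        ∑' l : {l : K // l ∈ du K L},
          cexp (2 * Real.pi * I * ((Algebra.trace ℚ K (r * l) : ℚ) : ℂ)) *
          ∏ v, lf (rv v) (G v) (wv v l (-y) (fun v => (starRingEnd ℂ) (ω v))) := by
  obtain ⟨b, b', hbb, hb, hb', hd⟩ := hLB K L hL
  obtain ⟨A, hA, hA1, hA2, hdet⟩ := hGM K b b' hbb y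
  have hcv : 0 ≤ cv K L :=
    mul_nonneg (Real.sqrt_nonneg _) (by exact_mod_cast FractionalIdeal.absNorm_nonneg L)
  set q : mixedEmbedding.index K → ℚ := fun i => b.repr r i with hq
  have hr : ∑ i, q i • b i = r := b.sum_repr r
  have hdec : ∃ C' : ℝ, ∀ ξ : mixedEmbedding.index K → ℝ,
      ‖∫ x : mixedEmbedding.index K → ℝ, cexp (-(2 * Real.pi * (∑ i, ξ i * x i) : ℝ) * I) *
        Phi G ω x‖ ≤ C' * (1 + ‖ξ‖) ^ (-(Fintype.card (mixedEmbedding.index K) + 1 : ℝ)) := by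
    obtain ⟨C', hC'⟩ := decay G ω hω C hC
    refine ⟨C', fun ξ => ?_⟩
    rw [ft_Phi G ω hω]
    exact hC' ξ
  obtain ⟨ht, hP⟩ := hPM (mixedEmbedding.index K) A hA (fun i => ((q i : ℚ) : ℝ)) (Phi G ω)
    (Phi_cont G ω hG) (Phi_comp G ω hω R hR) hdec
  have e1 : ∀ m : mixedEmbedding.index K → ℤ,
      A.mulVec (fun i => (m i : ℝ) + ((q i : ℚ) : ℝ)) = co K 1 y (∑ i, m i • b i + r) := by
    intro m
    have h1 := hA1 (fun i => (m i : ℚ) + q i)
    have h2 : (fun i => (((m i : ℚ) + q i : ℚ) : ℝ)) = fun i => (m i : ℝ) + ((q i : ℚ) : ℝ) := by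
      funext i
      push_cast
      ring
    rw [h2] at h1
    rw [h1]
    congr 1
    simp only [add_smul, Finset.sum_add_distrib, Int.cast_smul_eq_zsmul]
    rw [hr]
  have e2 : ∀ m : mixedEmbedding.index K → ℤ,
      (A⁻¹).transpose.mulVec (fun i => (m i : ℝ)) = co K (-1) (-y) (∑ i, m i • b' i) := by
    intro m
    have h1 := hA2 (fun i => (m i : ℚ))
    have h2 : (fun i => (((m i : ℚ) : ℚ) : ℝ)) = fun i => (m i : ℝ) := by
      funext i
      push_cast
      rfl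
    rw [h2] at h1
    rw [h1]
    congr 1
    simp only [Int.cast_smul_eq_zsmul]
  have e1' : ∀ m : mixedEmbedding.index K → ℤ,
      Phi G ω (A.mulVec (fun i => (m i : ℝ) + ((q i : ℚ) : ℝ))) =
        ∏ v, G v (wv v (∑ i, m i • b i + r) y ω) := by
    intro m
    rw [e1, Phi_co]
  have e2' : ∀ m : mixedEmbedding.index K → ℤ,
      ∫ x : mixedEmbedding.index K → ℝ, cexp (-(2 * Real.pi *
        (∑ i, (A⁻¹).transpose.mulVec (fun i => (m i : ℝ)) i * x i) : ℝ) * I) * Phi G ω x =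
      ∏ v, lf (rv v) (G v) (wv v (∑ i, m i • b' i) (-y) (fun v => (starRingEnd ℂ) (ω v))) := by
    intro m
    rw [ft_Phi G ω hω, e2, dual_co]
  have e3 : ∀ m : mixedEmbedding.index K → ℤ,
      Algebra.trace ℚ K (r * ∑ i, m i • b' i) = ∑ i, (m i : ℚ) * q i := by
    intro m
    rw [← hr, Finset.sum_mul, map_sum]
    refine Finset.sum_congr rfl fun i _ => ?_
    rw [Finset.mul_sum, map_sum, Finset.sum_eq_single i]
    · rw [← Int.cast_smul_eq_zsmul ℚ, smul_mul_smul_comm, map_smul, hbb, if_pos rfl]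
      simp [mul_comm]
    · intro j _ hj
      rw [← Int.cast_smul_eq_zsmul ℚ, smul_mul_smul_comm, map_smul, hbb, if_neg (Ne.symm hj)]
      simp
    · intro h
      exact absurd (Finset.mem_univ i) h
  have e4 : |A.det|⁻¹ = Real.exp (-(∑ v, (v.mult : ℝ) * y v) / 2) * (cv K L)⁻¹ := by
    rw [hdet, hd, Real.sqrt_sq hcv, mul_inv, ← Real.exp_neg, neg_div]
  refine ⟨?_, ?_, ?_⟩
  · rw [← (Pool.Agent.H3.HK.latEquiv L b hb).summable_iff]
    refine summable_of_hasFiniteSupport ?_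
    refine (fin_box A hA (fun i => ((q i : ℚ) : ℝ)) (2 * |R|)).subset ?_
    intro m hm
    have h1 : Phi G ω (A.mulVec (fun i => (m i : ℝ) + ((q i : ℚ) : ℝ))) ≠ 0 := by
      rw [e1']
      have h2 := Function.mem_support.1 hm
      rw [Function.comp_apply, Pool.Agent.H3.HK.latEquiv_apply] at h2
      exact norm_ne_zero_iff.1 h2
    exact Phi_supp G ω hω R hR _ h1
  · rw [← (Pool.Agent.H3.HK.latEquiv (du K L) b' hb').summable_iff]
    refine ht.congr fun m => ?_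
    rw [Function.comp_apply, Pool.Agent.H3.HK.latEquiv_apply, e2']
  · rw [← (Pool.Agent.H3.HK.latEquiv L b hb).tsum_eq,
      ← (Pool.Agent.H3.HK.latEquiv (du K L) b' hb').tsum_eq, ← e4]
    have h1 : ∑' m : mixedEmbedding.index K → ℤ,
        ∏ v, G v (wv v ((Pool.Agent.H3.HK.latEquiv L b hb m : {x : K // x ∈ L}) + r) y ω) =
        ∑' m : mixedEmbedding.index K → ℤ,
          Phi G ω (A.mulVec (fun i => (m i : ℝ) + ((q i : ℚ) : ℝ))) := by
      refine tsum_congr fun m => ?_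
      rw [Pool.Agent.H3.HK.latEquiv_apply, e1']
    rw [h1, hP]
    congr 1
    refine tsum_congr fun m => ?_
    rw [Pool.Agent.H3.HK.latEquiv_apply, e2', e3]
    congr 2
    push_cast
    ring

open scoped Classical in
/-- PG -/
theorem pf_PG (hPM : V_PM) (hLB : T_LBc) (hGM : T_GMc) : V_PG := by
  intro K _ _ f M X c G hf hM hX hc hG hR hC y ω hω
  obtain ⟨R, hR⟩ := hR
  obtain ⟨C, hC⟩ := hC
  set L : FI K := (f : FI K) * M with hLd
  have hL : L ≠ 0 := mul_ne_zero (FractionalIdeal.coeIdeal_ne_zero.2 hf) hM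
  have hcos := coset_sum hPM hGM hLB K G hG R hR C hC L hL y ω hω
  have hcosM := coset_sum hPM hGM hLB K G hG R hR C hC M hM y ω hω 0
  refine ⟨?_, (hcos 0).2.1, ?_⟩
  · have h := hcosM.1
    simp only [add_zero] at h
    exact h
  set D : ℂ := ((Real.exp (-(∑ v, (v.mult : ℝ) * y v) / 2) * (cv K L)⁻¹ : ℝ) : ℂ) with hD
  -- the left side
  have h1 : ∑' x : {x : K // x ∈ M}, c x * ∏ v, G v (wv v x y ω) =
      ∑ r ∈ X, c r * ∑' l : {l : K // l ∈ L}, ∏ v, G v (wv v (l + r) y ω) := by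
    have h2 : ∑' x : {x : K // x ∈ M}, c x * ∏ v, G v (wv v x y ω) =
        ∑' p : {r : K // r ∈ X} × {l : K // l ∈ L},
        c p.1.1 * ∏ v, G v (wv v (p.2.1 + p.1.1) y ω) := by
      rw [← (repEquiv hX).tsum_eq]
      refine tsum_congr fun p => ?_
      rw [repEquiv_apply]
      have h3 := hc p.1.1 (hX.1 _ p.1.2) p.2.1 p.2.2
      rw [add_comm] at h3
      rw [h3]
    have h3 : ∀ r : {r : K // r ∈ X}, Summable fun l : {l : K // l ∈ L} =>
        ‖c r.1 * ∏ v, G v (wv v (l.1 + r.1) y ω)‖ := by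
      intro r
      have h4 := ((hcos r.1).1).mul_left ‖c r.1‖
      refine h4.congr fun l => ?_
      rw [norm_mul]
    have h5 : Summable fun p : {r : K // r ∈ X} × {l : K // l ∈ L} =>
        c p.1.1 * ∏ v, G v (wv v (p.2.1 + p.1.1) y ω) := by
      refine Summable.of_norm ?_
      refine (summable_prod_of_nonneg fun p => norm_nonneg _).2 ⟨h3, ?_⟩
      exact Summable.of_finite
    rw [h2, h5.tsum_prod' fun r => (h3 r).of_norm, tsum_fintype,
      ← Finset.sum_coe_sort X (fun r => c r * ∑' l : {l : K // l ∈ L},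
        ∏ v, G v (wv v (l + r) y ω))]
    refine Finset.sum_congr rfl fun r _ => ?_
    show (∑' l : {l : K // l ∈ L}, c r.1 * ∏ v, G v (wv v (l.1 + r.1) y ω)) = _
    rw [tsum_mul_left]
  have hsum : ∀ r : K, Summable fun l : {l : K // l ∈ du K L} =>
      c r * (cexp (2 * Real.pi * I * ((Algebra.trace ℚ K (r * l) : ℚ) : ℂ)) *
        ∏ v, lf (rv v) (G v) (wv v l (-y) (fun v => (starRingEnd ℂ) (ω v)))) := by
    intro r
    refine Summable.of_norm ?_
    refine (((hcos r).2.1).mul_left ‖c r‖).congr fun l => ?_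
    rw [norm_mul, norm_mul]
    have h6 : ‖cexp (2 * Real.pi * I * ((Algebra.trace ℚ K (r * l) : ℚ) : ℂ))‖ = 1 := by
      have h7 : (2 * Real.pi * I * ((Algebra.trace ℚ K (r * l) : ℚ) : ℂ) : ℂ) =
          ((2 * Real.pi * ((Algebra.trace ℚ K (r * l) : ℚ) : ℝ) : ℝ) : ℂ) * I := by
        push_cast
        ring
      rw [h7, Complex.norm_exp_ofReal_mul_I]
    rw [h6, one_mul]
  rw [h1]
  have h8 : ∀ r ∈ X, c r * ∑' l : {l : K // l ∈ L}, ∏ v, G v (wv v (l + r) y ω) =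
      D * ∑' l : {l : K // l ∈ du K L},
        c r * (cexp (2 * Real.pi * I * ((Algebra.trace ℚ K (r * l) : ℚ) : ℂ)) *
          ∏ v, lf (rv v) (G v) (wv v l (-y) (fun v => (starRingEnd ℂ) (ω v)))) := by
    intro r _
    rw [(hcos r).2.2, tsum_mul_left]
    ring
  rw [Finset.sum_congr rfl h8, ← Finset.mul_sum]
  congr 1
  rw [← Summable.tsum_finsetSum fun r _ => hsum r]
  refine tsum_congr fun l => ?_
  unfold ft
  rw [Finset.sum_mul]
  refine Finset.sum_congr rfl fun r _ => ?_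
  ring

end Pool.Agent.H1.DW
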