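import Pool.Agent.H29.DW.Targets

/-!
# PG: Poisson summation for ideals and products of local functions: the Fourier transform
-/

set_option autoImplicit false

open NumberField NumberField.InfinitePlace NumberField.Units
  NumberField.Units.dirichletUnitTheorem MeasureTheory Set Filter Complex
open scoped nonZeroDivisors ENNReal

namespace Pool.Agent.H1.DW

open Pool.Agent.H25.HK Pool.Agent.H23.LB Pool.Agent.H23.LC Pool.Agent.H29.DW
open Pool.Agent.H28.RC (Rep ft idl)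
open Pool.Agent.H29.TC (GK fk_le dvs)

/-! ### Fubini -/

theorem mp_curry (ι κ : Type) [Fintype ι] [Fintype κ] :
    MeasurePreserving (MeasurableEquiv.curry ι κ ℝ) volume volume := by
  classical
  have h : MeasurePreserving (MeasurableEquiv.curry ι κ ℝ).symm volume volume := by
    refine ⟨(MeasurableEquiv.curry ι κ ℝ).symm.measurable, ?_⟩
    rw [volume_pi (ι := ι × κ)]
    refine (Measure.pi_eq fun s hs => ?_).symm
    rw [Measure.map_apply (MeasurableEquiv.curry ι κ ℝ).symm.measurable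
      (MeasurableSet.univ_pi hs)]
    have h1 : (MeasurableEquiv.curry ι κ ℝ).symm ⁻¹' (Set.univ.pi s) =
        Set.univ.pi fun i => Set.univ.pi fun j => s (i, j) := by
      ext f
      simp only [Set.mem_preimage, Set.mem_pi, Set.mem_univ, true_implies, Prod.forall]
      rfl
    rw [h1, volume_pi_pi]
    simp only [volume_pi_pi]
    rw [Fintype.prod_prod_type]
  exact h.symm (MeasurableEquiv.curry ι κ ℝ).symm

open scoped Classical in
theorem fub {A B : Type} [Fintype A] [Fintype B] (h : A → ℝ → ℂ) (g : B → ℂ → ℂ) :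
    ∫ u : A ⊕ B × Fin 2 → ℝ, (∏ a, h a (u (Sum.inl a))) *
      ∏ b, g b ((u (Sum.inr (b, 0)) : ℂ) + (u (Sum.inr (b, 1)) : ℂ) * I) =
    (∏ a, ∫ x : ℝ, h a x) * ∏ b, ∫ z : ℂ, g b z := by
  have h1 := volume_measurePreserving_sumPiEquivProdPi_symm (fun _ : A ⊕ B × Fin 2 => ℝ)
  rw [← h1.integral_comp']
  have h2 : ∀ x : (A → ℝ) × (B × Fin 2 → ℝ),
      (∏ a, h a ((MeasurableEquiv.sumPiEquivProdPi (fun _ : A ⊕ B × Fin 2 => ℝ)).symm x
        (Sum.inl a))) *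
      ∏ b, g b (((MeasurableEquiv.sumPiEquivProdPi (fun _ : A ⊕ B × Fin 2 => ℝ)).symm x
        (Sum.inr (b, 0)) : ℂ) +
        ((MeasurableEquiv.sumPiEquivProdPi (fun _ : A ⊕ B × Fin 2 => ℝ)).symm x
        (Sum.inr (b, 1)) : ℂ) * I) =
      (∏ a, h a (x.1 a)) * ∏ b, g b ((x.2 (b, 0) : ℂ) + (x.2 (b, 1) : ℂ) * I) := fun x => rfl
  simp only [h2]
  have h3 : (volume : Measure ((A → ℝ) × (B × Fin 2 → ℝ))) =
      (volume : Measure (A → ℝ)).prod (volume : Measure (B × Fin 2 → ℝ)) := rfl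
  rw [h3, integral_prod_mul (fun x : A → ℝ => ∏ a, h a (x a))
    (fun x : B × Fin 2 → ℝ => ∏ b, g b ((x (b, 0) : ℂ) + (x (b, 1) : ℂ) * I))]
  congr 1
  · exact integral_fintype_prod_volume_eq_prod _
  · have h4 := mp_curry B (Fin 2)
    have h5 : ∫ x : B × Fin 2 → ℝ, ∏ b, g b ((x (b, 0) : ℂ) + (x (b, 1) : ℂ) * I) =
        ∫ x : B → Fin 2 → ℝ, ∏ b, g b ((x b 0 : ℂ) + (x b 1 : ℂ) * I) := by
      rw [← h4.integral_comp']
      rfl
    rw [h5, integral_fintype_prod_volume_eq_prod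
      (fun b (y : Fin 2 → ℝ) => g b ((y 0 : ℂ) + (y 1 : ℂ) * I))]
    refine Finset.prod_congr rfl fun b _ => ?_
    rw [← (Complex.volume_preserving_equiv_pi.symm Complex.measurableEquivPi).integral_comp']
    rfl

/-! ### Local Fourier transforms -/

theorem loc_r (G : ℂ → ℂ) (ω : ℂ) (h1 : ‖ω‖ = 1) (h2 : ω.im = 0) (ξ : ℝ) :
    ∫ u : ℝ, cexp (-(2 * Real.pi * (ξ * u) : ℝ) * I) * G (u * ω) =
      lf true G (ξ * (starRingEnd ℂ) ω) := by
  have h3 : ω = ((ω.re : ℝ) : ℂ) := by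
    apply Complex.ext
    · simp
    · simp [h2]
  have h4 : ω.re = 1 ∨ ω.re = -1 := by
    rw [h3, Complex.norm_real, Real.norm_eq_abs] at h1
    exact (abs_eq one_pos.le).1 h1
  unfold lf
  simp only [if_true]
  rcases h4 with h4 | h4
  · rw [h3, h4]
    refine integral_congr_ae (Eventually.of_forall fun u => ?_)
    simp [mul_comm]
  · rw [h3, h4]
    rw [← integral_neg_eq_self (fun x : ℝ => cexp (-(2 * Real.pi *
      (x * ((ξ : ℂ) * (starRingEnd ℂ) ((-1 : ℝ) : ℂ)).re) : ℝ) * I) * G x)]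
    refine integral_congr_ae (Eventually.of_forall fun u => ?_)
    simp [mul_comm]

theorem loc_c (G : ℂ → ℂ) (ω : ℂ) (h1 : ‖ω‖ = 1) (ξ0 ξ1 : ℝ) :
    ∫ z : ℂ, cexp (-(2 * Real.pi * (ξ0 * z.re + ξ1 * z.im) : ℝ) * I) *
        G (z / ((Real.sqrt 2 : ℝ) : ℂ) * ω) =
      lf false G (((ξ0 : ℂ) - (ξ1 : ℂ) * I) / ((Real.sqrt 2 : ℝ) : ℂ) * (starRingEnd ℂ) ω) := by
  have hs : (0 : ℝ) < Real.sqrt 2 := Real.sqrt_pos.2 (by norm_num)
  have hs2 : Real.sqrt 2 * Real.sqrt 2 = 2 := Real.mul_self_sqrt (by norm_num)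
  have hωω : (starRingEnd ℂ) ω * ω = 1 := by
    rw [← Complex.normSq_eq_conj_mul_self, Complex.normSq_eq_norm_sq, h1]
    norm_num
  have hω0 : ‖(starRingEnd ℂ) ω‖ = 1 := by rw [RCLike.norm_conj, h1]
  obtain ⟨F, hF⟩ : ∃ F : ℂ → ℂ, F = fun z =>
    cexp (-(2 * Real.pi * (ξ0 * z.re + ξ1 * z.im) : ℝ) * I) *
        G (z / ((Real.sqrt 2 : ℝ) : ℂ) * ω) := ⟨_, rfl⟩
  have e1 : ∫ z : ℂ, F z = 2 * ∫ z : ℂ, F (Real.sqrt 2 • z) := by
    rw [MeasureTheory.Measure.integral_comp_smul, Complex.finrank_real_complex,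
      Real.sq_sqrt (by norm_num), abs_of_pos (by norm_num), Complex.real_smul]
    push_cast
    ring
  have e2 : ∫ z : ℂ, F (Real.sqrt 2 • z) = ∫ w : ℂ, F (Real.sqrt 2 • ((starRingEnd ℂ) ω * w)) := by
    let R : ℂ ≃ₗᵢ[ℝ] ℂ := rotation ⟨(starRingEnd ℂ) ω, by
      rw [Submonoid.unitSphere, ← SetLike.mem_coe]
      simpa using hω0⟩
    have h := R.measurePreserving
    rw [← h.integral_comp R.toHomeomorph.measurableEmbedding (fun z => F (Real.sqrt 2 • z))]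
    rfl
  have e3 : ∀ w : ℂ, F (Real.sqrt 2 • ((starRingEnd ℂ) ω * w)) =
      cexp (-(2 * Real.pi * (2 * (w * (((ξ0 : ℂ) - (ξ1 : ℂ) * I) / ((Real.sqrt 2 : ℝ) : ℂ) *
        (starRingEnd ℂ) ω)).re) : ℝ) * I) * G w := by
    intro w
    rw [hF]
    simp only
    have h5 : Real.sqrt 2 • ((starRingEnd ℂ) ω * w) / ((Real.sqrt 2 : ℝ) : ℂ) * ω = w := by
      rw [Complex.real_smul]
      have h6 : ((Real.sqrt 2 : ℝ) : ℂ) ≠ 0 := by exact_mod_cast hs.ne'
      rw [mul_div_cancel_left₀ _ h6, mul_right_comm, hωω, one_mul]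
    have h7 : ξ0 * (Real.sqrt 2 • ((starRingEnd ℂ) ω * w)).re +
        ξ1 * (Real.sqrt 2 • ((starRingEnd ℂ) ω * w)).im =
        2 * (w * (((ξ0 : ℂ) - (ξ1 : ℂ) * I) / ((Real.sqrt 2 : ℝ) : ℂ) *
          (starRingEnd ℂ) ω)).re := by
      have h8 : w * (((ξ0 : ℂ) - (ξ1 : ℂ) * I) / ((Real.sqrt 2 : ℝ) : ℂ) * (starRingEnd ℂ) ω) =
          (((1 / Real.sqrt 2 : ℝ)) : ℂ) * (((ξ0 : ℂ) - (ξ1 : ℂ) * I) *
            ((starRingEnd ℂ) ω * w)) := by
        push_cast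
        ring
      have h9 : (2 : ℝ) * (1 / Real.sqrt 2) = Real.sqrt 2 := by
        rw [mul_one_div, div_eq_iff hs.ne', hs2]
      rw [h8, Complex.re_ofReal_mul, ← mul_assoc, h9]
      generalize (starRingEnd ℂ) ω * w = s
      simp only [Complex.real_smul, Complex.mul_re, Complex.mul_im, Complex.sub_re,
        Complex.sub_im, Complex.ofReal_re, Complex.ofReal_im, Complex.I_re, Complex.I_im]
      ring
    rw [h5, h7]
  have e4 : ∫ z : ℂ, cexp (-(2 * Real.pi * (ξ0 * z.re + ξ1 * z.im) : ℝ) * I) *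
        G (z / ((Real.sqrt 2 : ℝ) : ℂ) * ω) = ∫ z : ℂ, F z := by rw [hF]
  rw [e4, e1, e2]
  simp only [e3]
  unfold lf
  simp

end Pool.Agent.H1.DW
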